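import Pool.Agent.Lib_helper58.ND.N3
import Pool.Agent.Lib_helper80.IS.Irr

/-! # Null germs of curves (MP_45e720_ag): two coprime symmetric differentials -/

set_option autoImplicit false
set_option linter.unusedVariables false
set_option linter.unusedSectionVars false

open Filter Topology Metric Set
open scoped Manifold ContDiff

namespace Pool.Agent.ND

open Pool.Agent.BR Pool.Agent.MBS Pool.Agent.SL Pool.Agent.IS Pool.Agent.NullCurves
open MinBrody (IsGerm chartJet IsInvariantJetDifferential)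

section metric

variable {E X : Type} [NormedAddCommGroup E] [NormedSpace ℂ E] [FiniteDimensional ℂ E]
  [MetricSpace X] [ChartedSpace E X] [IsManifold 𝓘(ℂ, E) ω X] {A : Cha E X}

/-- the determinant of two vectors -/
noncomputable def i4_w (e : Module.Basis (Fin 2) ℂ E) (u v : E) : ℂ :=
  e.repr u 0 * e.repr v 1 - e.repr u 1 * e.repr v 0

theorem i4_w_map (e : Module.Basis (Fin 2) ℂ E) (D : E →L[ℂ] E) (u v : E) :
    i4_w e (D u) (D v) = LinearMap.det (D : E →ₗ[ℂ] E) * i4_w e u v := by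
  unfold i4_w
  rw [v8_det e, v8_map e D u, v8_map e D v]
  simp only [map_add, map_smul, Finsupp.coe_add, Finsupp.coe_smul, Pi.add_apply, Pi.smul_apply,
    smul_eq_mul]
  ring

theorem i4_w_comb (e : Module.Basis (Fin 2) ℂ E) (a b c d : ℂ) (u v : E) :
    i4_w e (a • u + b • v) (c • u + d • v) = (a * d - b * c) * i4_w e u v := by
  unfold i4_w
  simp only [map_add, map_smul, Finsupp.coe_add, Finsupp.coe_smul, Pi.add_apply, Pi.smul_apply,
    smul_eq_mul]
  ring

theorem i4_w_basis (e : Module.Basis (Fin 2) ℂ E) : i4_w e (e 0) (e 1) = 1 := by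
  unfold i4_w
  simp

theorem i4_w_diff (e : Module.Basis (Fin 2) ℂ E) (q : E × E) :
    DifferentiableAt ℂ (fun q : E × E => i4_w e q.1 q.2) q := by
  have h : ∀ k : Fin 2, Differentiable ℂ (fun u : E => e.repr u k) := fun k =>
    (LinearMap.toContinuousLinearMap (e.coord k)).differentiable
  unfold i4_w
  exact ((((h 0).comp differentiable_fst).mul ((h 1).comp differentiable_snd)).sub
    (((h 1).comp differentiable_fst).mul ((h 0).comp differentiable_snd))) q

/-- a section of a power of the canonical bundle, given in the charts, as a plane form -/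
theorem planeForm_of_ps (hA : ∀ i, ∃ y, A.ch i = chartAt E y) (e : Module.Basis (Fin 2) ℂ E)
    {w : ℕ} {t : A.ι → X → ℂ} (ht : PS A w t) :
    ∃ τ : BrodyRigid.TangentPairs E X → ℂ, BrodyRigid.IsPlaneForm E X w τ ∧
      ∀ x i, x ∈ (A.ch i).source → ((∀ u v : E, τ (BrodyRigid.pair x u v) = 0) ↔ t i x = 0) := by
  choose y hy using hA
  choose j hj using A.cover
  have hjs : ∀ x, x ∈ (A.ch (j x)).source := fun x => A.W_sub _ (subset_closure (hj x))
  obtain ⟨τ, hτ⟩ : ∃ τ : BR.TangentPairs E X → ℂ, τ = fun p => t (j p.proj) p.proj *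
      i4_w e (tangentCoordChange 𝓘(ℂ, E) p.proj (y (j p.proj)) p.proj p.2.1)
        (tangentCoordChange 𝓘(ℂ, E) p.proj (y (j p.proj)) p.proj p.2.2) ^ w := ⟨_, rfl⟩
  -- independence of the chart
  have hind : ∀ (i : A.ι) (x : X) (u v : E), x ∈ (A.ch i).source →
      τ ⟨x, (u, v)⟩ = t i x * i4_w e (tangentCoordChange 𝓘(ℂ, E) x (y i) x u)
        (tangentCoordChange 𝓘(ℂ, E) x (y i) x v) ^ w := by
    intro i x u v hi
    have hi' := hi
    have h0 := hjs x
    have h0' := hjs x
    rw [hy] at hi' h0'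
    have hx := mem_chart_source E x
    have hcomp : ∀ v : E, tangentCoordChange 𝓘(ℂ, E) x (y i) x v =
        dtr A (j x) i x (tangentCoordChange 𝓘(ℂ, E) x (y (j x)) x v) := by
      intro v
      have h1 : tangentCoordChange 𝓘(ℂ, E) (y (j x)) (y i) x
          (tangentCoordChange 𝓘(ℂ, E) x (y (j x)) x v) = tangentCoordChange 𝓘(ℂ, E) x (y i) x v := by
        refine tangentCoordChange_comp ?_
        simp only [extChartAt_source]
        exact ⟨⟨hx, h0'⟩, hi'⟩
      rw [← h1]
      unfold dtr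
      rw [hy i, hy (j x)]
      exact (SS.in2_tcc (E := E) _).symm
    have h1 := ht.tr (j x) i x h0 hi
    rw [hτ]
    show t (j x) x * i4_w e (tangentCoordChange 𝓘(ℂ, E) x (y (j x)) x u)
      (tangentCoordChange 𝓘(ℂ, E) x (y (j x)) x v) ^ w = _
    have h2 := i4_w_map e (dtr A (j x) i x) (tangentCoordChange 𝓘(ℂ, E) x (y (j x)) x u)
      (tangentCoordChange 𝓘(ℂ, E) x (y (j x)) x v)
    rw [hcomp u, hcomp v, h2, h1, mul_pow]
    unfold jac
    ring
  have hpf : BR.IsPlaneForm E X w τ := by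
   refine ⟨?_, ?_⟩
   · intro p
     set x₀ := p.proj with hx₀
     set i := j x₀ with hi
     have hxs : x₀ ∈ (chartAt E (y i)).source := by rw [← hy i]; exact hjs x₀
     have hps : p ∈ (frm_chart (E := E) (y i)).source := by
       rw [frm_source]
       exact hxs
     obtain ⟨G, hG⟩ : ∃ G : ModelProd E (E × E) → ℂ, G = fun q =>
         t i ((chartAt E (y i)).symm q.1) * i4_w e q.2.1 q.2.2 ^ w := ⟨_, rfl⟩
     have h1 : DifferentiableAt ℂ (fun q : E × (E × E) => G q) (frm_chart (E := E) (y i) p) := by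
       rw [hG]
       have h2 : DifferentiableAt ℂ (fun ξ : E => t i ((chartAt E (y i)).symm ξ))
           (frm_chart (E := E) (y i) p).1 := by
         have h3 := (ht.an i x₀ (hjs x₀)).differentiableAt
         rw [hy i] at h3
         rw [e1_fst]
         exact h3
       have h4 : DifferentiableAt ℂ (fun q : E × (E × E) => t i ((chartAt E (y i)).symm q.1))
           (frm_chart (E := E) (y i) p) :=
         DifferentiableAt.comp (f := fun q : E × (E × E) => q.1)
           (g := fun ξ : E => t i ((chartAt E (y i)).symm ξ)) _ h2 differentiableAt_fst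
       have h5 : DifferentiableAt ℂ (fun q : E × (E × E) => i4_w e q.2.1 q.2.2)
           (frm_chart (E := E) (y i) p) :=
         DifferentiableAt.comp (f := fun q : E × (E × E) => q.2)
           (g := fun q : E × E => i4_w e q.1 q.2) _ (i4_w_diff e _) differentiableAt_snd
       exact h4.mul (h5.pow w)
     have h2 : MDifferentiableAt (𝓘(ℂ, E).prod 𝓘(ℂ, E × E)) 𝓘(ℂ, ℂ) G
         (frm_chart (E := E) (y i) p) := e1_conv h1
     have h3 : MDifferentiableAt (𝓘(ℂ, E).prod 𝓘(ℂ, E × E)) (𝓘(ℂ, E).prod 𝓘(ℂ, E × E))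
         (frm_chart (E := E) (y i)) p := mdifferentiableAt_atlas (chart_mem_atlas _ _) hps
     have h4 : MDifferentiableAt (𝓘(ℂ, E).prod 𝓘(ℂ, E × E)) 𝓘(ℂ, ℂ)
         (fun p' => G (frm_chart (E := E) (y i) p')) p :=
       h2.comp (f := fun p' => frm_chart (E := E) (y i) p') p h3
     refine h4.congr_of_eventuallyEq ?_
     filter_upwards [(frm_chart (E := E) (y i)).open_source.mem_nhds hps] with p' hp'
     rw [frm_source] at hp'
     obtain ⟨x, u, v⟩ := p'
     have hx : x ∈ (chartAt E (y i)).source := hp'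
     have hx' : x ∈ (A.ch i).source := by rw [hy i]; exact hx
     refine (hind i x u v hx').trans ?_
     have h5 := frm_apply (E := E) (y i) x u v
     show _ = G (frm_chart (E := E) (y i) (⟨x, (u, v)⟩ : BR.TangentPairs E X))
     rw [h5, hG]
     show _ = t i ((chartAt E (y i)).symm (chartAt E (y i) x)) * _
     rw [(chartAt E (y i)).left_inv hx]
   · intro x a b c d u v
     have hx := hjs x
     have h1 := hind (j x) x (a • u + b • v) (c • u + d • v) hx
     have h2 := hind (j x) x u v hx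
     show τ ⟨x, (a • u + b • v, c • u + d • v)⟩ = (a * d - b * c) ^ w * τ ⟨x, (u, v)⟩
     rw [h1, h2, map_add, map_add, map_smul, map_smul, map_smul, map_smul, i4_w_comb, mul_pow]
     ring
  refine ⟨τ, (BrodyRigid.isPlaneForm_iff w τ).2 hpf, ?_⟩
  · intro x i hi
    constructor
    · intro h
      have hi' := hi
      rw [hy] at hi'
      have hx := mem_chart_source E x
      have h1 : ∀ v : E, tangentCoordChange 𝓘(ℂ, E) x (y i) x
          (tangentCoordChange 𝓘(ℂ, E) (y i) x x v) = v := by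
        intro v
        have h2 : tangentCoordChange 𝓘(ℂ, E) x (y i) x
            (tangentCoordChange 𝓘(ℂ, E) (y i) x x v) =
            tangentCoordChange 𝓘(ℂ, E) (y i) (y i) x v := by
          refine tangentCoordChange_comp ?_
          simp only [extChartAt_source]
          exact ⟨⟨hi', hx⟩, hi'⟩
        rw [h2, tangentCoordChange_self]
        simp only [extChartAt_source]
        exact hi'
      have h2 := h (tangentCoordChange 𝓘(ℂ, E) (y i) x x (e 0))
        (tangentCoordChange 𝓘(ℂ, E) (y i) x x (e 1))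
      have h3 := hind i x (tangentCoordChange 𝓘(ℂ, E) (y i) x x (e 0))
        (tangentCoordChange 𝓘(ℂ, E) (y i) x x (e 1)) hi
      rw [h1, h1, i4_w_basis, one_pow, mul_one] at h3
      rw [← h3]
      exact h2
    · intro h u v
      have h3 := hind i x u v hi
      rw [h, zero_mul] at h3
      exact h3

theorem i4_symForm {m : ℕ} {p : E → ℂ} (hp : SS.IsSymForm m p) (D : E →L[ℂ] E) :
    SS.IsSymForm m fun v => p (D v) := by
  obtain ⟨P, hP⟩ := hp
  refine ⟨P.compContinuousLinearMap fun _ => D, fun w => ?_⟩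
  show p (D w) = _
  rw [hP, ContinuousMultilinearMap.compContinuousLinearMap_apply]

theorem i4_sd_charts (hA : ∀ i, ∃ y, A.ch i = chartAt E y) :
    ∃ T : A.ι → X → (E →L[ℂ] E),
      (∀ i, ∀ x ∈ (A.ch i).source, Function.Bijective (T i x)) ∧
      (∀ i j x, x ∈ (A.ch i).source → x ∈ (A.ch j).source → ∀ v,
        T i x v = T j x (dtr A i j x v)) ∧
      (∀ (c : ℂ → X) (z : ℂ), MDifferentiableAt 𝓘(ℂ, ℂ) 𝓘(ℂ, E) c z → ∀ i,
        c z ∈ (A.ch i).source → DifferentiableAt ℂ (A.loc i c) z ∧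
        (⟨c z, T i (c z) (deriv (A.loc i c) z)⟩ : TangentBundle 𝓘(ℂ, E) X) =
          BrodyRigid.velocity (E := E) c z) ∧
      ∀ (m : ℕ) (σ : TangentBundle 𝓘(ℂ, E) X → ℂ), SS.IsSymDiff E X m σ →
        ∀ i, ∀ x ∈ (A.ch i).source, ∀ v : E, AnalyticAt ℂ
          (fun ξ => σ ⟨(A.ch i).symm ξ, T i ((A.ch i).symm ξ) v⟩) (A.ch i x) := by
  choose y hy using hA
  refine ⟨fun i x => x2_D (E := E) (y i) x x, ?_, ?_, ?_, ?_⟩
  · intro i x hx
    rw [hy i] at hx
    have hx' := mem_chart_source E x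
    have h1 := x2_comp (E := E) hx hx' hx
    have h2 := x2_comp (E := E) hx' hx hx'
    rw [x2_self hx] at h1
    rw [x2_self hx'] at h2
    constructor
    · intro v w hvw
      have h3 : ∀ v, x2_D (E := E) x (y i) x (x2_D (E := E) (y i) x x v) = v := fun v =>
        (DFunLike.congr_fun h1 v).symm
      rw [← h3 v, ← h3 w]
      exact congrArg _ hvw
    · intro v
      exact ⟨x2_D (E := E) x (y i) x v, (DFunLike.congr_fun h2 v).symm⟩
  · intro i j x hi hj v
    rw [hy i] at hi
    rw [hy j] at hj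
    have hx' := mem_chart_source E x
    have h1 := x2_comp (E := E) hi hj hx'
    have h2 : dtr A i j x = x2_D (E := E) (y i) (y j) x := by
      rw [dtr, hy i, hy j]
      rfl
    rw [h2]
    exact DFunLike.congr_fun h1 v
  · intro c z hcz i hi
    have hloc : A.loc i c = fun z => chartAt E (y i) (c z) := by
      funext z
      rw [Cha.loc, hy i]
    rw [hy i] at hi
    obtain ⟨hc, h0⟩ := z1_md hcz
    have h1 := (z1_chain hc (mem_chart_source E (c z)) hi h0).differentiableAt
    rw [hloc]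
    refine ⟨h1, ?_⟩
    have hx := mem_chart_source E (c z)
    have h2 := x2_chain hc hi hx h1
    have h3 := x2_mf (E := E) hc h2.differentiableAt
    rw [h2.deriv] at h3
    rw [← h3]
    rfl
  · intro m σ hσ i x hx v
    obtain ⟨S, S1, S2, S3, S4⟩ := SS.symDiff_chart hσ
    have hx0 : x ∈ (chartAt E (y i)).source := by
      rw [← hy i]
      exact hx
    have hx' : A.ch i x ∈ (chartAt E (y i)).target := by
      rw [hy i]
      exact (chartAt E (y i)).map_source hx0
    have h1 : AnalyticAt ℂ (fun ξ => S (y i) ξ v) (A.ch i x) := by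
      have h2 := S1 (y i) _ hx' v
      exact h2.comp (f := fun ξ : E => (ξ, v)) (analyticAt_id.prod analyticAt_const)
    refine h1.congr ?_
    have h3 : ∀ᶠ ξ in 𝓝 (A.ch i x), ξ ∈ (chartAt E (y i)).target :=
      (chartAt E (y i)).open_target.mem_nhds hx'
    filter_upwards [h3] with ξ hξ
    have h4 : (A.ch i).symm ξ = (chartAt E (y i)).symm ξ := by rw [hy i]
    rw [h4]
    set x₁ := (chartAt E (y i)).symm ξ with hx₁
    have h5 : x₁ ∈ (chartAt E (y i)).source := (chartAt E (y i)).map_target hξ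
    have h6 : chartAt E (y i) x₁ = ξ := (chartAt E (y i)).right_inv hξ
    have h7 := S3 (y i) x₁ x₁ h5 (mem_chart_source E x₁) v
    rw [S4, h6] at h7
    rw [h7, x2_D, h6]

/-- the resultant of two coprime symmetric differentials is a plane form which vanishes along the
immersed germs which are killed by them -/
theorem coprime_metric (hA : ∀ i, ∃ y, A.ch i = chartAt E y) (e : Module.Basis (Fin 2) ℂ E)
    (hco : StrongLang.CoprimeSymDiffs E X) {c : ℂ → X} (hc : IsGerm E c)
    (hv : BrodyRigid.velocity (E := E) c 0 ≠ ⟨c 0, (0 : E)⟩)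
    (hk : ∀ (m : ℕ), 0 < m → ∀ σ : TangentBundle 𝓘(ℂ, E) X → ℂ, SS.IsSymDiff E X m σ →
      ∀ᶠ z in 𝓝 (0 : ℂ), σ (BrodyRigid.velocity (E := E) c z) = 0) :
    ∃ (k : ℕ) (τ : BrodyRigid.TangentPairs E X → ℂ), 0 < k ∧ BrodyRigid.IsPlaneForm E X k τ ∧
      (∃ (x : X) (u v : E), τ (BrodyRigid.pair x u v) ≠ 0) ∧
      ∀ᶠ z in 𝓝 (0 : ℂ), ∀ u v : E, τ (BrodyRigid.pair (c z) u v) = 0 := by
  have : CompleteSpace E := FiniteDimensional.complete ℂ E
  obtain ⟨m, m', σ, σ', x, hm, hm', hσ, hσ', hx⟩ := hco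
  obtain ⟨T, hT1, hT2, hT3, hT4⟩ := i4_sd_charts hA
  obtain ⟨R, hR1, hR2⟩ := exists_res e hm hm'
  have hs : ∀ i x, SS.IsSymForm m fun v => σ ⟨x, T i x v⟩ := fun i x =>
    i4_symForm (hσ.fib x) (T i x)
  have hs' : ∀ i x, SS.IsSymForm m' fun v => σ' ⟨x, T i x v⟩ := fun i x =>
    i4_symForm (hσ'.fib x) (T i x)
  have hPS : PS A (m * m')
      (fun i x => R (fun v => σ ⟨x, T i x v⟩) (fun v => σ' ⟨x, T i x v⟩)) := by
    refine ⟨fun i x hx => ?_, fun i j x hi hj => ?_⟩
    · exact hR2 (fun ξ v => σ ⟨(A.ch i).symm ξ, T i ((A.ch i).symm ξ) v⟩)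
        (fun ξ v => σ' ⟨(A.ch i).symm ξ, T i ((A.ch i).symm ξ) v⟩) (A.ch i x)
        (fun v => hT4 m σ hσ i x hx v) (fun v => hT4 m' σ' hσ' i x hx v)
    · have h1 := (hR1 _ _ (hs j x) (hs' j x)).2 (dtr A i j x)
      have e1 : (fun v => σ ⟨x, T i x v⟩) = fun v => σ ⟨x, T j x (dtr A i j x v)⟩ := by
        funext v
        rw [hT2 i j x hi hj v]
      have e2 : (fun v => σ' ⟨x, T i x v⟩) = fun v => σ' ⟨x, T j x (dtr A i j x v)⟩ := by
        funext v
        rw [hT2 i j x hi hj v]
      rw [e1, e2]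
      exact h1
  obtain ⟨τ, hτ, hτt⟩ := planeForm_of_ps hA e hPS
  refine ⟨m * m', τ, Nat.mul_pos hm hm', hτ, ?_, ?_⟩
  · obtain ⟨i, hi⟩ := A.cover x
    have hi' : x ∈ (A.ch i).source := A.W_sub i (subset_closure hi)
    by_contra hcon
    push Not at hcon
    have h0 := (hτt x i hi').1 (fun u v => hcon x u v)
    obtain ⟨v, hv, h1, h2⟩ := (hR1 _ _ (hs i x) (hs' i x)).1.mp h0
    have h3 : T i x v ≠ 0 := by
      intro hc
      apply hv
      apply (hT1 i x hi').1
      rw [hc, map_zero]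
    exact hx _ h3 h1 h2
  · obtain ⟨i, hi⟩ := A.cover (c 0)
    have hi' : c 0 ∈ (A.ch i).source := A.W_sub i (subset_closure hi)
    have hc0 : ContinuousAt c 0 := hc.self_of_nhds.continuousAt
    have h1 : ∀ᶠ w in 𝓝 (0 : ℂ), c w ∈ (A.ch i).source :=
      hc0.tendsto.eventually_mem ((A.ch i).open_source.mem_nhds hi')
    have han : AnalyticAt ℂ (A.loc i c) 0 := by
      rw [Complex.analyticAt_iff_eventually_differentiableAt]
      filter_upwards [hc, h1] with w hw hw1
      exact (hT3 c w hw i hw1).1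
    have hd0 : deriv (A.loc i c) 0 ≠ 0 := by
      intro h0
      have h2 := (hT3 c 0 hc.self_of_nhds i hi').2
      rw [h0, map_zero] at h2
      exact hv h2.symm
    have h2 : ∀ᶠ w in 𝓝 (0 : ℂ), deriv (A.loc i c) w ≠ 0 :=
      han.deriv.continuousAt.eventually_ne hd0
    filter_upwards [hc, h1, h2, hk m hm σ hσ, hk m' hm' σ' hσ'] with w hw hw1 hw2 hw3 hw4
    refine (hτt (c w) i hw1).2 ?_
    refine (hR1 _ _ (hs i (c w)) (hs' i (c w))).1.mpr ⟨deriv (A.loc i c) w, hw2, ?_, ?_⟩
    · rw [(hT3 c w hw i hw1).2]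
      exact hw3
    · rw [(hT3 c w hw i hw1).2]
      exact hw4

end metric

section top

variable {E X : Type} [NormedAddCommGroup E] [NormedSpace ℂ E] [FiniteDimensional ℂ E]

/-- I4: the resultant of two coprime symmetric differentials vanishes along the germs which are
killed by them -/
theorem coprime_null [t : TopologicalSpace X] [T2Space X] [ChartedSpace E X]
    [IsManifold 𝓘(ℂ, E) ω X] [CompactSpace X] (h2 : Module.finrank ℂ E = 2)
    (hco : StrongLang.CoprimeSymDiffs E X) {c : ℂ → X} (hc : IsGerm E c)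
    (hv : BrodyRigid.velocity (E := E) c 0 ≠ ⟨c 0, (0 : E)⟩)
    (hk : ∀ (m : ℕ), 0 < m → ∀ σ : TangentBundle 𝓘(ℂ, E) X → ℂ, SS.IsSymDiff E X m σ →
      ∀ᶠ z in 𝓝 (0 : ℂ), σ (BrodyRigid.velocity (E := E) c z) = 0) :
    ∃ (k : ℕ) (τ : BrodyRigid.TangentPairs E X → ℂ), 0 < k ∧ BrodyRigid.IsPlaneForm E X k τ ∧
      (∃ (x : X) (u v : E), τ (BrodyRigid.pair x u v) ≠ 0) ∧
      ∀ᶠ z in 𝓝 (0 : ℂ), ∀ u v : E, τ (BrodyRigid.pair (c z) u v) = 0 := by
  obtain ⟨m, hm, -⟩ := exists_metric (E := E) (X := X)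
  subst hm
  obtain ⟨A, hA⟩ := exists_cha (E := E) (X := X)
  exact coprime_metric hA (Module.finBasisOfFinrankEq ℂ E h2) hco hc hv hk

end top

end Pool.Agent.ND
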