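import Pool.Agent.Lib_helper58.ND.N1
import Pool.Agent.Lib_helper80.SL.L.Z1
import Pool.Agent.Lib_helper80.SL.L.Z2

/-! # Null germs of curves (MP_45e720_ag): maps to tori and symmetric differentials -/

set_option autoImplicit false
set_option linter.unusedVariables false
set_option linter.unusedSectionVars false

open Filter Topology Metric Set
open scoped Manifold ContDiff

namespace Pool.Agent.ND

open Pool.Agent.NullCurves
open MinBrody (IsGerm chartJet IsInvariantJetDifferential)

section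

variable {E X : Type} [NormedAddCommGroup E] [NormedSpace ℂ E] [FiniteDimensional ℂ E]
  [TopologicalSpace X] [ChartedSpace E X] [IsManifold 𝓘(ℂ, E) ω X]

/-- invariant jet differentials vanish along null germs -/
theorem inv_null {c : ℂ → X} (hn : IsNullGerm E c) :
    ∀ᶠ z in 𝓝 (0 : ℂ), ∀ (k m : ℕ) (P : (ℂ → X) → ℂ), IsInvariantJetDifferential E k m P →
      P (fun w => c (z + w)) = 0 := by
  filter_upwards [hn] with z hz k m P hP
  exact norm_eq_zero.1 (hz k _ (jetGauge_of_hol hP.hol hP.stat))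

/-- N4: symmetric differentials vanish along null germs -/
theorem symDiff_null {c : ℂ → X} (hc : IsGerm E c) (hn : IsNullGerm E c) {m : ℕ} (hm : 0 < m)
    {σ : TangentBundle 𝓘(ℂ, E) X → ℂ} (hσ : SS.IsSymDiff E X m σ) :
    ∀ᶠ z in 𝓝 (0 : ℂ), σ (BrodyRigid.velocity (E := E) c z) = 0 := by
  have hc' : ∀ᶠ z in 𝓝 (0 : ℂ), ∀ᶠ w in 𝓝 z, MDifferentiableAt 𝓘(ℂ, ℂ) 𝓘(ℂ, E) c w :=
    eventually_eventually_nhds.2 hc
  filter_upwards [inv_null hn, hc'] with z hz hcz
  have h1 := hz 1 m _ (SL.z1_jet hm hσ)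
  obtain ⟨S, S1, S2, S3, S4⟩ := SS.symDiff_chart hσ
  have hs := mem_chart_source E (c z)
  have hs' : (fun w => c (z + w)) 0 ∈ (chartAt E (c z)).source := by
    show c (z + 0) ∈ _
    rw [add_zero]
    exact hs
  rw [(SL.z1_vel (n2_shift hcz).self_of_nhds hs' S3 S4).2] at h1
  rw [(SL.z1_vel hcz.self_of_nhds hs S3 S4).2]
  have e1 : deriv (fun w => chartAt E (c z) (c (z + w))) 0 =
      deriv (fun w => chartAt E (c z) (c w)) z := by
    have := deriv_comp_const_add (f := fun w => chartAt E (c z) (c w)) z 0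
    rwa [add_zero] at this
  rw [e1] at h1
  have e2 : chartAt E (c z) (c (z + 0)) = chartAt E (c z) (c z) := by rw [add_zero]
  rw [e2] at h1
  exact h1

/-- N3: maps to tori are constant along null germs -/
theorem torus_null {c : ℂ → X} (hc : IsGerm E c) (hn : IsNullGerm E c) {W : Type}
    [NormedAddCommGroup W] [NormedSpace ℂ W] [FiniteDimensional ℂ W] {Γ : Submodule ℤ W}
    [DiscreteTopology Γ] {φ : X → W ⧸ Γ} (hφ : StrongLang.IsTorusValued E Γ φ) :
    ∀ᶠ z in 𝓝 (0 : ℂ), φ (c z) = φ (c 0) := by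
  choose F hF using hφ
  -- the derivative of a lift vanishes
  have hder : ∀ᶠ z in 𝓝 (0 : ℂ), deriv (fun w => F (c z) (c w)) z = 0 := by
    filter_upwards [inv_null hn] with z hz
    have h1 : ∀ l : W →L[ℂ] ℂ, l (deriv (fun w => F (c z) (c w)) z) = 0 := by
      intro l
      have h2 := hz 1 1 _ (SL.z2_jet hF l)
      have h3 : deriv (fun w => F (c (z + 0)) (c (z + w))) 0 =
          deriv (fun w => F (c z) (c w)) z := by
        rw [add_zero, deriv_comp_const_add (f := fun w => F (c z) (c w)) z 0, add_zero]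
      rw [← h3]
      exact h2
    by_contra hne
    obtain ⟨l, hl⟩ := SeparatingDual.exists_ne_zero (R := ℂ) hne
    exact hl (h1 l)
  have hcc : ContinuousAt c 0 := hc.self_of_nhds.continuousAt
  have h1 := hcc.eventually (eventually_eventually_nhds.2 (hF (c 0)))
  obtain ⟨r, hr, hball⟩ := Metric.eventually_nhds_iff_ball.1 ((h1.and hc).and hder)
  have h2 : ∀ z ∈ ball (0 : ℂ) r, HasDerivAt (fun w => F (c 0) (c w)) 0 z := by
    intro z hz
    obtain ⟨⟨h3, hcz⟩, hdz⟩ := hball z hz
    have h4 := hF (c z)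
    have h5 := SL.z2_const (φ := φ) (F := F (c 0)) (G := F (c z))
      h3.self_of_nhds.1.continuousAt h4.self_of_nhds.1.continuousAt
      (h3.mono fun _ h => h.2) (h4.mono fun _ h => h.2)
    have h6 : (fun w => F (c 0) (c w)) =ᶠ[𝓝 z]
        fun w => F (c z) (c w) + (F (c 0) (c z) - F (c z) (c z)) :=
      hcz.continuousAt.eventually h5
    have h7 := (SL.z2_curve (G := F (c z)) hcz h4.self_of_nhds.1
      (mem_chart_source E (c z))).differentiableAt.hasDerivAt
    rw [hdz] at h7
    exact (h7.add_const _).congr_of_eventuallyEq h6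
  have h3 : ∀ z ∈ ball (0 : ℂ) r, F (c 0) (c z) = F (c 0) (c 0) := by
    intro z hz
    refine isOpen_ball.is_const_of_deriv_eq_zero (f := fun w => F (c 0) (c w))
      (convex_ball 0 r).isPreconnected
      (fun w hw => (h2 w hw).differentiableAt.differentiableWithinAt)
      (fun w hw => (h2 w hw).deriv) hz (mem_ball_self hr)
  filter_upwards [ball_mem_nhds (0 : ℂ) hr] with z hz
  rw [(hball z hz).1.1.self_of_nhds.2, h3 z hz,
    (hball 0 (mem_ball_self hr)).1.1.self_of_nhds.2]

end

end Pool.Agent.ND
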