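import Pool.Agent.Lib_helper58.ND.N3
import Pool.Agent.Lib_helper80.IS.Irr

/-! # Null germs of curves (MP_45e720_ag): identity theorems along entire curves -/

set_option autoImplicit false
set_option linter.unusedVariables false
set_option linter.unusedSectionVars false

open Filter Topology Metric Set
open scoped Manifold ContDiff

namespace Pool.Agent.ND

open Pool.Agent.BR Pool.Agent.MBS Pool.Agent.SL Pool.Agent.NullCurves
open MinBrody (IsGerm chartJet IsInvariantJetDifferential)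

section

variable {E X : Type} [NormedAddCommGroup E] [NormedSpace ℂ E] [FiniteDimensional ℂ E]
  [TopologicalSpace X] [ChartedSpace E X] [IsManifold 𝓘(ℂ, E) ω X]

/-- I1: the derivatives of a nonconstant entire curve are not all zero -/
theorem exists_immersed [T2Space X] {h : ℂ → X} (hh : MDifferentiable 𝓘(ℂ, ℂ) 𝓘(ℂ, E) h)
    (hne : ∃ z z', h z ≠ h z') :
    ∃ z₀, BrodyRigid.velocity (E := E) h z₀ ≠ ⟨h z₀, (0 : E)⟩ := by
  by_contra hcon
  push Not at hcon
  obtain ⟨z₁, z₂, hz⟩ := hne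
  refine hz ?_
  have hd : ∀ (y : X) (z : ℂ), h z ∈ (chartAt E y).source →
      HasDerivAt (fun w => chartAt E y (h w)) 0 z := by
    intro y z hy
    obtain ⟨hc, h2⟩ := SL.z1_md (E := E) (hh z)
    have hx := mem_chart_source E (h z)
    have h3 := SL.z1_chain hc hx hy h2
    have h4 : (mfderiv 𝓘(ℂ, ℂ) 𝓘(ℂ, E) h z (1 : ℂ) : E) = (0 : E) := by
      have h7 := hcon z
      unfold BrodyRigid.velocity at h7
      simp only [tangentMap] at h7
      have h8 := Bundle.TotalSpace.mk_inj.1 h7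
      exact h8
    rw [SL.z1_mf hc h2] at h4
    rw [h4, map_zero] at h3
    exact h3
  have hlc : IsLocallyConstant h := by
    rw [IsLocallyConstant.iff_eventually_eq]
    intro z₀
    have hs := mem_chart_source E (h z₀)
    have h1 : ∀ᶠ w in 𝓝 z₀, h w ∈ (chartAt E (h z₀)).source :=
      (hh z₀).continuousAt.eventually_mem ((chartAt E (h z₀)).open_source.mem_nhds hs)
    obtain ⟨r, hr, hball⟩ := Metric.eventually_nhds_iff_ball.1 h1
    filter_upwards [ball_mem_nhds z₀ hr] with w hw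
    have h2 : chartAt E (h z₀) (h w) = chartAt E (h z₀) (h z₀) :=
      isOpen_ball.is_const_of_deriv_eq_zero (f := fun w => chartAt E (h z₀) (h w))
        (convex_ball z₀ r).isPreconnected
        (fun w hw => (hd _ w (hball w hw)).differentiableAt.differentiableWithinAt)
        (fun w hw => (hd _ w (hball w hw)).deriv) hw (mem_ball_self hr)
    exact (chartAt E (h z₀)).injOn (hball w hw) hs h2
  exact hlc.apply_eq_of_preconnectedSpace z₁ z₂

/-- I3: identity theorem for maps to tori along an entire curve -/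
theorem torus_identity {W : Type} [NormedAddCommGroup W] [NormedSpace ℂ W] [FiniteDimensional ℂ W]
    {Γ : Submodule ℤ W} [DiscreteTopology Γ] {φ : X → W ⧸ Γ} (hφ : StrongLang.IsTorusValued E Γ φ)
    {h : ℂ → X} (hh : MDifferentiable 𝓘(ℂ, ℂ) 𝓘(ℂ, E) h) (z₀ : ℂ)
    (h0 : ∀ᶠ z in 𝓝 z₀, φ (h z) = φ (h z₀)) : ∀ z z', φ (h z) = φ (h z') := by
  have : CompleteSpace W := FiniteDimensional.complete ℂ W
  choose F hF using hφ
  obtain ⟨S, hS⟩ : ∃ S : Set ℂ, S = {z | ∀ᶠ w in 𝓝 z, φ (h w) = φ (h z₀)} := ⟨_, rfl⟩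
  have hSo : IsOpen S := by
    rw [hS, isOpen_iff_mem_nhds]
    intro z hz
    exact eventually_eventually_nhds.2 hz
  have hSc : IsClosed S := by
    rw [← closure_subset_iff_isClosed]
    intro z₁ hz₁
    have hc : ContinuousAt h z₁ := (hh z₁).continuousAt
    have h1 := hc.eventually (eventually_eventually_nhds.2 (hF (h z₁)))
    obtain ⟨r, hr, hball⟩ := Metric.eventually_nhds_iff_ball.1 h1
    -- the lift is analytic
    have hd : DifferentiableOn ℂ (fun w => F (h z₁) (h w)) (ball z₁ r) := by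
      intro w hw
      exact (SL.z2_curve (G := F (h z₁)) (hh w) (hball w hw).self_of_nhds.1
        (mem_chart_source E (h w))).differentiableAt.differentiableWithinAt
    have han : AnalyticOnNhd ℂ (fun w => F (h z₁) (h w)) (ball z₁ r) := hd.analyticOnNhd isOpen_ball
    obtain ⟨z, hzr, hzS⟩ : ∃ z ∈ ball z₁ r, z ∈ S := by
      obtain ⟨z, h3, h4⟩ := mem_closure_iff.1 hz₁ (ball z₁ r) isOpen_ball (mem_ball_self hr)
      exact ⟨z, h3, h4⟩
    have hz' : ∀ᶠ w in 𝓝 z, φ (h w) = φ (h z₀) := by rw [hS] at hzS; exact hzS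
    have hzb : ∀ᶠ w in 𝓝 z, φ (h w) = Submodule.Quotient.mk (F (h z₁) (h w)) := by
      filter_upwards [isOpen_ball.mem_nhds hzr] with w hw
      exact (hball w hw).self_of_nhds.2
    have hev := SL.z2_const (X := ℂ) (φ := fun w => φ (h w)) (F := fun w => F (h z₁) (h w))
      (G := fun _ => F (h z₁) (h z)) (x := z) (han z hzr).continuousAt continuousAt_const hzb (by
        filter_upwards [hz'] with w hw
        rw [hw, ← hz'.self_of_nhds]
        exact hzb.self_of_nhds)
    have heq := han.eqOn_of_preconnected_of_eventuallyEq (g := fun _ => F (h z₁) (h z))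
      (fun w _ => analyticAt_const) (convex_ball z₁ r).isPreconnected hzr (by
        filter_upwards [hev] with w hw
        rw [hw, sub_self, add_zero])
    rw [hS]
    show ∀ᶠ w in 𝓝 z₁, φ (h w) = φ (h z₀)
    filter_upwards [ball_mem_nhds z₁ hr] with w hw
    have h5 : F (h z₁) (h w) = F (h z₁) (h z) := heq hw
    rw [(hball w hw).self_of_nhds.2, h5, ← hz'.self_of_nhds]
    exact hzb.self_of_nhds.symm
  have hSu : S = univ := IsClopen.eq_univ ⟨hSc, hSo⟩ ⟨z₀, by rw [hS]; exact h0⟩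
  intro z z'
  have h1 : z ∈ S := by rw [hSu]; trivial
  have h2 : z' ∈ S := by rw [hSu]; trivial
  rw [hS] at h1 h2
  exact (h1.self_of_nhds).trans (h2.self_of_nhds).symm

end

section metric

variable {E X : Type} [NormedAddCommGroup E] [NormedSpace ℂ E] [FiniteDimensional ℂ E]
  [MetricSpace X] [CompactSpace X] [ChartedSpace E X] [IsManifold 𝓘(ℂ, E) ω X]

theorem planeForm_identity_metric (h2 : Module.finrank ℂ E = 2) {k : ℕ}
    {τ : BrodyRigid.TangentPairs E X → ℂ}
    (hτ : BrodyRigid.IsPlaneForm E X k τ) {h : ℂ → X} (hh : MDifferentiable 𝓘(ℂ, ℂ) 𝓘(ℂ, E) h)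
    (z₀ : ℂ) (h0 : ∀ᶠ z in 𝓝 z₀, ∀ u v : E, τ (BrodyRigid.pair (h z) u v) = 0) :
    ∀ (z : ℂ) (u v : E), τ (BrodyRigid.pair (h z) u v) = 0 := by
  obtain ⟨A, hA⟩ := BR.exists_cha (E := E) (X := X)
  let e : Module.Basis (Fin 2) ℂ E := Module.finBasisOfFinrankEq ℂ E h2
  have hhA : ∀ z, A.HolAt h z := (BR.holAt_iff A hA h).1 hh
  obtain ⟨t, hPS, ht1, ht2⟩ := IS.ps_of_planeForm hA e hτ
  have h1 : IS.VA t h := by
    refine IS.va_ident hPS.an (fun i j x hi hj h0 => ?_) hhA (z₁ := z₀) ?_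
    · rw [hPS.tr i j x hi hj, h0, mul_zero]
    · refine Filter.Eventually.frequently ?_
      filter_upwards [h0.filter_mono nhdsWithin_le_nhds] with w hw j hj
      exact ht2 (h w) hw j hj
  intro z u v
  by_contra hne
  obtain ⟨i, hi⟩ := A.cover (h z)
  exact ht1 _ u v hne i (A.W_sub i (subset_closure hi)) (h1 z i (A.W_sub i (subset_closure hi)))

end metric

section top

variable {E X : Type} [NormedAddCommGroup E] [NormedSpace ℂ E] [FiniteDimensional ℂ E]

/-- I2: identity theorem for plane forms along an entire curve -/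
theorem planeForm_identity [t : TopologicalSpace X] [T2Space X] [ChartedSpace E X]
    [IsManifold 𝓘(ℂ, E) ω X] [CompactSpace X] (h2 : Module.finrank ℂ E = 2) {k : ℕ}
    {τ : BrodyRigid.TangentPairs E X → ℂ}
    (hτ : BrodyRigid.IsPlaneForm E X k τ) {h : ℂ → X} (hh : MDifferentiable 𝓘(ℂ, ℂ) 𝓘(ℂ, E) h)
    (z₀ : ℂ) (h0 : ∀ᶠ z in 𝓝 z₀, ∀ u v : E, τ (BrodyRigid.pair (h z) u v) = 0) :
    ∀ (z : ℂ) (u v : E), τ (BrodyRigid.pair (h z) u v) = 0 := by
  obtain ⟨m, hm, -⟩ := exists_metric (E := E) (X := X)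
  subst hm
  exact planeForm_identity_metric h2 hτ hh z₀ h0

end top

end Pool.Agent.ND
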