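import Pool.Agent.Lib_helper58.ND.I1
import Pool.Agent.Lib_helper58.ND.I4

/-! # Null germs of curves (MP_45e720_ag): assembly -/

set_option autoImplicit false
set_option linter.unusedVariables false
set_option linter.unusedSectionVars false

open Filter Topology Metric Set
open scoped Manifold ContDiff

namespace Pool.Agent.ND

open Pool.Agent.NullCurves
open MinBrody (IsGerm chartJet IsInvariantJetDifferential)

section assembly

variable {E X : Type} [NormedAddCommGroup E] [NormedSpace ℂ E] [FiniteDimensional ℂ E]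

theorem isGerm_shift [TopologicalSpace X] [ChartedSpace E X] {h : ℂ → X}
    (hh : MDifferentiable 𝓘(ℂ, ℂ) 𝓘(ℂ, E) h) (z₀ : ℂ) : IsGerm E (fun w => h (z₀ + w)) := by
  refine Eventually.of_forall fun z => ?_
  have h9 : MDifferentiable 𝓘(ℂ, ℂ) 𝓘(ℂ, ℂ) (fun w : ℂ => z₀ + w) := by
    rw [mdifferentiable_iff_differentiable]
    fun_prop
  exact (hh.comp h9) z

/-- a Brody curve is doubly periodic or all its germs are null -/
theorem brody_null [TopologicalSpace X] [CompactSpace X] [T2Space X] [ChartedSpace E X]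
    [IsManifold 𝓘(ℂ, E) ω X] (hX : BrodyRigid.PlaneAmple E X) {h : ℂ → X}
    (hh : BrodyRigid.IsBrodyCurve (E := E) h) :
    BrodyRigid.DoublyPeriodic h ∨ ∀ z₀ : ℂ, IsNullGerm E (fun w => h (z₀ + w)) := by
  have hc : Continuous h := hh.1.continuous
  rcases (BrodyRigid.main_gauge hX).1 ⟨h, hc⟩ hh with h1 | h1
  · exact Or.inl h1
  · refine Or.inr fun z₀ => Eventually.of_forall fun z k L hL => ?_
    have h2 := h1 _ (isGauge_of_jetGauge hL) (z₀ + z)
    show L (fun w => h (z₀ + (z + w))) = 0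
    have h3 : (fun w => h (z₀ + (z + w))) = fun w => h (z₀ + z + w) := by
      funext w
      rw [add_assoc]
    rw [h3]
    exact h2

theorem velocity_shift' [TopologicalSpace X] [CompactSpace X] [T2Space X] [ChartedSpace E X]
    [IsManifold 𝓘(ℂ, E) ω X] {h : ℂ → X} (hh : MDifferentiable 𝓘(ℂ, ℂ) 𝓘(ℂ, E) h) (z₀ : ℂ) :
    BrodyRigid.velocity (E := E) (fun w => h (z₀ + w)) 0 = BrodyRigid.velocity (E := E) h z₀ :=
  BrodyRigid.velocity_shift (f := ⟨h, hh.continuous⟩) hh z₀

/-- Brody curves with an algebraic germ -/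
theorem algebraic_curve [TopologicalSpace X] [CompactSpace X] [T2Space X]
    [ConnectedSpace X] [ChartedSpace E X] [IsManifold 𝓘(ℂ, E) ω X]
    (h2 : Module.finrank ℂ E = 2) (hX : BrodyRigid.PlaneAmple E X)
    {h : ℂ → X} (hh : BrodyRigid.IsBrodyCurve (E := E) h)
    (hne : ∃ z z', h z ≠ h z') (z₀ : ℂ) (ha : IsAlgebraicGerm E (fun w => h (z₀ + w))) :
    StrongLang.InTorusCurve E h := by
  have hsub : ∀ {p : X → Prop}, (∀ᶠ z in 𝓝 (0 : ℂ), p (h (z₀ + z))) → ∀ᶠ z in 𝓝 z₀, p (h z) := by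
    intro p hp
    have ht : Tendsto (fun z : ℂ => z - z₀) (𝓝 z₀) (𝓝 0) := by
      have : ContinuousAt (fun z : ℂ => z - z₀) z₀ := by fun_prop
      have h := this.tendsto
      simpa using h
    filter_upwards [ht.eventually hp] with z h1
    rwa [add_sub_cancel] at h1
  refine IS.surface_curve h2 hX hh hne ?_
  rcases ha with ⟨k, τ, hk, hτ, ⟨x, u, v, hx⟩, hz⟩ | ⟨W, j1, j2, j3, Γ, j4, φ, hφ, hφne, hz⟩
  · left
    intro hd
    exact hx (hd k τ hk hτ (planeForm_identity h2 hτ hh.1 z₀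
      (hsub (p := fun x => ∀ u v : E, τ (BrodyRigid.pair x u v) = 0) hz)) x u v)
  · right; left
    refine ⟨W, j1, j2, j3, Γ, j4, φ, hφ, hφne, torus_identity hφ hh.1 z₀ ?_⟩
    refine hsub (p := fun x => φ x = φ (h z₀)) ?_
    filter_upwards [hz] with z hz
    simpa only [add_zero] using hz

/-- Brody curves are contained in rational or elliptic curves, or Zariski dense and null -/
theorem brody_dichotomy [TopologicalSpace X] [CompactSpace X] [T2Space X]
    [ConnectedSpace X] [ChartedSpace E X] [IsManifold 𝓘(ℂ, E) ω X]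
    (hX : BrodyRigid.CanonicalAmple E X) {h : ℂ → X} (hh : BrodyRigid.IsBrodyCurve (E := E) h)
    (hne : ∃ z z', h z ≠ h z') :
    StrongLang.InTorusCurve E h ∨
      (StrongLang.ZariskiDense E h ∧ ∀ z₀ : ℂ, IsNullGerm E (fun w => h (z₀ + w))) := by
  have hP : BrodyRigid.PlaneAmple E X := BrodyRigid.planeAmple_of_canonicalAmple hX
  by_cases hz : StrongLang.ZariskiDense E h
  · rcases brody_null hP hh with h5 | h5
    · exact Or.inl ⟨h, hh.1, h5, hne, Set.Subset.rfl⟩
    · exact Or.inr ⟨hz, h5⟩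
  · exact Or.inl (IS.surface_curve hX.1 hP hh hne (Or.inl hz))

/-- all null germs algebraic -/
theorem hyp_of_algebraic [TopologicalSpace X] [CompactSpace X] [T2Space X]
    [ConnectedSpace X] [ChartedSpace E X] [IsManifold 𝓘(ℂ, E) ω X]
    (h2 : Module.finrank ℂ E = 2) (hX : BrodyRigid.PlaneAmple E X)
    (hN : ∀ c : ℂ → X, IsGerm E c → BrodyRigid.velocity (E := E) c 0 ≠ ⟨c 0, (0 : E)⟩ →
        IsNullGerm E c → IsAlgebraicGerm E c)
    (hT : BrodyRigid.NoEllipticMaps E X) : SS.BrodyHyperbolic E X := by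
  obtain ⟨𝒢, g1, -, h3⟩ := SL.main_thm hX
  have h4 := (h3 (by
    intro h hh _
    by_contra hno
    push Not at hno
    rcases brody_null hX hh with h5 | h5
    · obtain ⟨z, z', hz⟩ := hno
      exact hz (hT h hh.1 h5 z z')
    · obtain ⟨z₀, hz₀⟩ := exists_immersed hh.1 hno
      obtain ⟨g, h11, h12, ⟨z, z', h13⟩, -⟩ := algebraic_curve h2 hX hh hno z₀
        (hN _ (isGerm_shift hh.1 z₀) (by
          rw [velocity_shift' hh.1 z₀, add_zero]
          exact hz₀) (h5 z₀))
      exact h13 (hT g h11 h12 z z'))).2.2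
  refine (h4.out 0 1).1 ?_
  rw [eq_empty_iff_forall_notMem]
  intro g hg
  have h6 : ∃ z z', g z ≠ g z' := by
    by_contra hno
    push Not at hno
    have h7 := g1 g hg
    refine h7.2.2 0 ?_
    have : g = fun _ => g 0 := funext fun z => hno z 0
    rw [this]
    simp [BrodyRigid.velocity, tangentMap]
    rfl
  obtain ⟨z, z', hz⟩ := h6
  exact hz (hT g (g1 g hg).1 (g1 g hg).2.1 z z')

/-- the criterion -/
theorem null_main [TopologicalSpace X] [CompactSpace X] [T2Space X]
    [ConnectedSpace X] [ChartedSpace E X] [IsManifold 𝓘(ℂ, E) ω X]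
    (hX : BrodyRigid.CanonicalAmple E X) (hN : NullGermsAlgebraic E X) :
    List.TFAE [BrodyRigid.NoEllipticMaps E X, SS.NoTorusMaps E X, SS.BrodyHyperbolic E X,
      ∀ x : X, StrongLang.HyperbolicAt E x] := by
  have h2 : Module.finrank ℂ E = 2 := hX.1
  have hP : BrodyRigid.PlaneAmple E X := BrodyRigid.planeAmple_of_canonicalAmple hX
  obtain ⟨𝒢, g1, -, h3⟩ := SL.main_thm hP
  have key : SS.BrodyHyperbolic E X → (SS.NoTorusMaps E X ∧ ∀ x : X, StrongLang.HyperbolicAt E x) := by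
    intro hb
    have h4 := (h3 (fun h hh _ => hb h hh.1)).2.2
    exact ⟨(h4.out 1 2).1 hb, (h4.out 1 3).1 hb⟩
  tfae_have 3 → 4 := fun h => (key h).2
  tfae_have 4 → 3 := IS.brody_of_hyp'
  tfae_have 3 → 2 := fun h => (key h).1
  tfae_have 2 → 1 := IS.brody_torus
  tfae_have 1 → 3 := by
    intro hT
    obtain ⟨X', i1, i2, i3, i4, i5, i6, π, h5, h6, h7⟩ := hN
    exact IS.etale_entire h5 h6 (hyp_of_algebraic h2 (IS.etale_planeAmple h5 h6 hP) h7
      (IS.etale_elliptic h5 h6 hT))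
  tfae_finish

/-- irregular surfaces -/
theorem irregular_null [TopologicalSpace X] [CompactSpace X] [T2Space X]
    [ConnectedSpace X] [ChartedSpace E X] [IsManifold 𝓘(ℂ, E) ω X]
    (h2 : Module.finrank ℂ E = 2) (hI : StrongLang.VirtuallyIrregular E X) :
    NullGermsAlgebraic E X := by
  obtain ⟨X', i1, i2, i3, i4, i5, i6, π, h5, h6, h7⟩ := hI
  refine ⟨X', i1, i2, i3, i4, i5, i6, π, h5, h6, fun c hc hv hn => ?_⟩
  rcases h7 with ⟨W, j1, j2, j3, Γ, j4, φ, hφ, hφne⟩ | h7
  · exact Or.inr ⟨W, j1, j2, j3, Γ, j4, φ, hφ, hφne, torus_null hc hn hφ⟩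
  · exact Or.inl (coprime_null h2 h7 hc hv fun m hm σ hσ => symDiff_null hc hn hm hσ)

end assembly

end Pool.Agent.ND
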