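import Pool.Agent.Lib_helper58.ND.Notions
import Pool.Agent.Lib_helper82.BR.NFinal

/-! # Null germs of curves (MP_45e720_ag): jet gauges are gauges -/

set_option autoImplicit false
set_option linter.unusedVariables false
set_option linter.unusedSectionVars false

open Filter Topology Metric Set
open scoped Manifold ContDiff

namespace Pool.Agent.ND

open Pool.Agent.NullCurves
open MinBrody (IsGerm chartJet IsInvariantJetDifferential)

section metric

variable {E X : Type} [NormedAddCommGroup E] [NormedSpace ℂ E] [FiniteDimensional ℂ E]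
  [MetricSpace X] [CompactSpace X] [ChartedSpace E X] [IsManifold 𝓘(ℂ, E) ω X]

theorem n1_jet0 (k : ℕ) (y : X) (c : ℂ → X) : chartJet E k y c 0 = chartAt E y (c 0) := by
  simp [chartJet]

theorem isGauge_metric {k : ℕ} {L : (ℂ → X) → ℝ} (hL : IsJetGauge E k L) :
    BrodyRigid.IsGauge E X (fun g => L g) := by
  have hger : ∀ g ∈ BrodyRigid.EntireCurves E X, IsGerm E (g : ℂ → X) := fun g hg =>
    Eventually.of_forall fun z => hg z
  refine ⟨?_, fun g hg => hL.nonneg _ (hger g hg), fun g hg h0 => ?_, fun g hg r hr => ?_⟩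
  · intro g₀ hg₀ a ha
    have hy := mem_chart_source E (g₀ 0)
    obtain ⟨Q, hQ, hQL⟩ := hL.usc (g₀ 0)
    have ha : L g₀ < a := ha
    rw [hQL g₀ (hger g₀ hg₀) hy] at ha
    have hJ0 : chartJet E k (g₀ 0) g₀ ∈ {J : Fin (k + 1) → E | J 0 ∈ (chartAt E (g₀ 0)).target} := by
      show chartJet E k (g₀ 0) g₀ 0 ∈ (chartAt E (g₀ 0)).target
      rw [n1_jet0]
      exact (chartAt E (g₀ 0)).map_source hy
    have h1 := hQ _ hJ0 a ha
    have h3 : ∀ᶠ g : C(ℂ, X) in 𝓝[BrodyRigid.EntireCurves E X] g₀,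
        g 0 ∈ (chartAt E (g₀ 0)).source := by
      refine mem_nhdsWithin_of_mem_nhds ?_
      exact ((continuous_eval_const (F := C(ℂ, X)) (0 : ℂ)).tendsto g₀).eventually
        ((chartAt E (g₀ 0)).open_source.mem_nhds hy)
    have h2 : Tendsto (fun g : C(ℂ, X) => chartJet E k (g₀ 0) g)
        (𝓝[BrodyRigid.EntireCurves E X] g₀)
        (𝓝[{J : Fin (k + 1) → E | J 0 ∈ (chartAt E (g₀ 0)).target}] (chartJet E k (g₀ 0) g₀)) := by
      refine tendsto_nhdsWithin_iff.2 ⟨BR.gj_cont (E := E) k (g₀ 0) hy, ?_⟩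
      filter_upwards [h3] with g hg
      show chartJet E k (g₀ 0) g 0 ∈ (chartAt E (g₀ 0)).target
      rw [n1_jet0]
      exact (chartAt E (g₀ 0)).map_source hg
    filter_upwards [h2.eventually h1, h3, self_mem_nhdsWithin] with g h4 h5 h6
    show L g < a
    rw [hQL g (hger g h6) h5]
    exact h4
  · have hy := mem_chart_source E (g 0)
    refine hL.stat _ (hger g hg) (g 0) hy ?_
    have h1 : AnalyticAt ℂ (fun t => chartAt E (g 0) (g t)) 0 := BR.gj_an hg _ hy
    have h4 := BR.sym_mf (E := E) (f := g) (z := 0) g.continuous.continuousAt h1.differentiableAt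
    rw [← h4]
    have h6 : (mfderiv 𝓘(ℂ, ℂ) 𝓘(ℂ, E) g 0 (1 : ℂ) : E) = (0 : E) := by
      have h7 := h0
      unfold BrodyRigid.velocity at h7
      simp only [tangentMap] at h7
      have h8 := Bundle.TotalSpace.mk_inj.1 h7
      exact h8
    exact h6
  · have h1 := hL.sub g r (r + 1) hr (by linarith) fun z _ => hg z
    exact h1

end metric

section top

variable {E X : Type} [NormedAddCommGroup E] [NormedSpace ℂ E] [FiniteDimensional ℂ E]

/-- N1: a jet gauge is a gauge on the entire curves -/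
theorem isGauge_of_jetGauge [t : TopologicalSpace X] [T2Space X] [ChartedSpace E X]
    [IsManifold 𝓘(ℂ, E) ω X] [CompactSpace X] {k : ℕ} {L : (ℂ → X) → ℝ} (hL : IsJetGauge E k L) :
    BrodyRigid.IsGauge E X (fun g => L g) := by
  have : ProperSpace E := FiniteDimensional.proper ℂ E
  have : SecondCountableTopology X := ChartedSpace.secondCountable_of_sigmaCompact E X
  have : TopologicalSpace.MetrizableSpace X :=
    TopologicalSpace.metrizableSpace_of_t3_secondCountable X
  obtain ⟨m, hm⟩ : ∃ m : MetricSpace X,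
      m.toPseudoMetricSpace.toUniformSpace.toTopologicalSpace = t :=
    ⟨TopologicalSpace.metrizableSpaceMetric X, rfl⟩
  subst hm
  exact isGauge_metric hL

end top

section hol

variable {E X : Type} [NormedAddCommGroup E] [NormedSpace ℂ E] [FiniteDimensional ℂ E]
  [TopologicalSpace X] [ChartedSpace E X] [IsManifold 𝓘(ℂ, E) ω X]

/-- a holomorphic curve in a chart is analytic -/
theorem n2_an {f : ℂ → X} {z : ℂ} (hf : ∀ᶠ w in 𝓝 z, MDifferentiableAt 𝓘(ℂ, ℂ) 𝓘(ℂ, E) f w)
    {y : X} (hy : f z ∈ (chartAt E y).source) : AnalyticAt ℂ (fun w => chartAt E y (f w)) z := by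
  have : CompleteSpace E := FiniteDimensional.complete ℂ E
  have hc : ContinuousAt f z := hf.self_of_nhds.continuousAt
  have h1 : ∀ᶠ w in 𝓝 z, DifferentiableAt ℂ (fun w => chartAt E y (f w)) w := by
    filter_upwards [hf, hc.eventually_mem ((chartAt E y).open_source.mem_nhds hy)] with w h1 h2
    have h3 : MDifferentiableAt 𝓘(ℂ, E) 𝓘(ℂ, E) (chartAt E y) (f w) :=
      mdifferentiableAt_atlas (I := 𝓘(ℂ, E)) (chart_mem_atlas E y) h2
    have h4 : MDifferentiableAt 𝓘(ℂ, ℂ) 𝓘(ℂ, E) (chartAt E y ∘ f) w := h3.comp w h1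
    rw [mdifferentiableAt_iff_differentiableAt] at h4
    exact h4
  exact Complex.analyticAt_iff_eventually_differentiableAt.2 h1

theorem n2_shift {f : ℂ → X} {z : ℂ}
    (hf : ∀ᶠ w in 𝓝 z, MDifferentiableAt 𝓘(ℂ, ℂ) 𝓘(ℂ, E) f w) :
    IsGerm E (fun w => f (z + w)) := by
  have h1 : Tendsto (fun w : ℂ => z + w) (𝓝 0) (𝓝 z) := by
    have : ContinuousAt (fun w : ℂ => z + w) 0 := by fun_prop
    have h := this.tendsto
    simpa using h
  filter_upwards [h1.eventually hf] with w hw
  have h2 : MDifferentiableAt 𝓘(ℂ, ℂ) 𝓘(ℂ, ℂ) (fun w : ℂ => z + w) w := by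
    rw [mdifferentiableAt_iff_differentiableAt]
    fun_prop
  exact hw.comp w h2

theorem n2_jet_shift (k : ℕ) (y : X) (f : ℂ → X) (z : ℂ) :
    chartJet E k y (fun w => f (z + w)) = fun j : Fin (k + 1) =>
      iteratedDeriv j (fun w => chartAt E y (f w)) z := by
  funext j
  have h1 := congrFun (iteratedDeriv_comp_const_add (n := (j : ℕ))
    (f := fun w => chartAt E y (f w)) (s := z)) 0
  simp only [add_zero] at h1
  exact h1

theorem n2_jet_an (k : ℕ) (y : X) {f : ℂ → X} {z : ℂ}
    (hf : ∀ᶠ w in 𝓝 z, MDifferentiableAt 𝓘(ℂ, ℂ) 𝓘(ℂ, E) f w)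
    (hz : f z ∈ (chartAt E y).source) :
    AnalyticAt ℂ (fun z => chartJet E k y (fun w => f (z + w))) z := by
  have : CompleteSpace E := FiniteDimensional.complete ℂ E
  have h1 : (fun z => chartJet E k y (fun w => f (z + w))) = fun z => fun j : Fin (k + 1) =>
      iteratedDeriv j (fun w => chartAt E y (f w)) z := by
    funext z
    exact n2_jet_shift k y f z
  rw [h1, analyticAt_pi_iff]
  intro j
  simp only [iteratedDeriv_eq_iterate]
  exact (n2_an hf hz).iterated_deriv _

/-- a holomorphic function of the jets is holomorphic along a curve -/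
theorem n2_hol {k : ℕ} {P : (ℂ → X) → ℂ}
    (hol : ∀ y : X, ∃ Q : (Fin (k + 1) → E) → ℂ,
      (∀ J, J 0 ∈ (chartAt E y).target → AnalyticAt ℂ Q J) ∧
      ∀ c, IsGerm E c → c 0 ∈ (chartAt E y).source → P c = Q (chartJet E k y c))
    {f : ℂ → X} {z : ℂ} (hf : ∀ᶠ w in 𝓝 z, MDifferentiableAt 𝓘(ℂ, ℂ) 𝓘(ℂ, E) f w) :
    AnalyticAt ℂ (fun z => P (fun w => f (z + w))) z := by
  have hy := mem_chart_source E (f z)
  obtain ⟨Q, hQ, hQP⟩ := hol (f z)
  have h1 := n2_jet_an (E := E) k (f z) hf hy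
  have h2 : AnalyticAt ℂ Q (chartJet E k (f z) (fun w => f (z + w))) := by
    refine hQ _ ?_
    rw [n2_jet_shift]
    simp only [Fin.val_zero, iteratedDeriv_zero]
    exact (chartAt E (f z)).map_source hy
  have h3 : AnalyticAt ℂ (fun z' => Q (chartJet E k (f z) (fun w => f (z' + w)))) z :=
    h2.comp (f := fun z' => chartJet E k (f z) (fun w => f (z' + w))) h1
  refine h3.congr ?_
  have h4 : ∀ᶠ z' in 𝓝 z, f z' ∈ (chartAt E (f z)).source :=
    hf.self_of_nhds.continuousAt.eventually_mem ((chartAt E (f z)).open_source.mem_nhds hy)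
  filter_upwards [h4, eventually_eventually_nhds.2 hf] with z' hz' hf'
  refine (hQP _ (n2_shift hf') ?_).symm
  show f (z' + 0) ∈ _
  rwa [add_zero]

/-- the mean value inequality for the norm of a holomorphic function -/
theorem n2_mean {h : ℂ → ℂ} {r : ℝ} (hr : 0 < r) (hh : ∀ z ∈ closedBall (0 : ℂ) r,
    AnalyticAt ℂ h z) : ‖h 0‖ ≤ Real.circleAverage (fun z => ‖h z‖) 0 r := by
  have hd : DiffContOnCl ℂ h (ball 0 |r|) := by
    rw [abs_of_pos hr]
    refine ⟨fun z hz => (hh z (ball_subset_closedBall hz)).differentiableAt.differentiableWithinAt,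
      ?_⟩
    rw [closure_ball _ hr.ne']
    exact fun z hz => (hh z hz).continuousAt.continuousWithinAt
  have h1 : Real.circleAverage h 0 r = h 0 := hd.circleAverage
  rw [← h1, Real.circleAverage_def, Real.circleAverage_def, norm_smul, smul_eq_mul,
    Real.norm_of_nonneg (by positivity)]
  refine mul_le_mul_of_nonneg_left ?_ (by positivity)
  exact intervalIntegral.norm_integral_le_integral_norm Real.two_pi_pos.le

/-- N2: the absolute value of a function of the `k`-jets which is holomorphic and vanishes on the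
stationary germs is a jet gauge -/
theorem jetGauge_of_hol {k : ℕ} {P : (ℂ → X) → ℂ}
    (hol : ∀ y : X, ∃ Q : (Fin (k + 1) → E) → ℂ,
      (∀ J, J 0 ∈ (chartAt E y).target → AnalyticAt ℂ Q J) ∧
      ∀ c, IsGerm E c → c 0 ∈ (chartAt E y).source → P c = Q (chartJet E k y c))
    (stat : ∀ c, IsGerm E c → ∀ y : X, c 0 ∈ (chartAt E y).source →
      deriv (fun z => chartAt E y (c z)) 0 = 0 → P c = 0) :
    IsJetGauge E k (fun c => ‖P c‖) := by
  refine ⟨fun y => ?_, fun c _ => norm_nonneg _, fun c hc y hy h0 => ?_, fun f r R hr hR hf => ?_⟩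
  · obtain ⟨Q, hQ, hQP⟩ := hol y
    refine ⟨fun J => ‖Q J‖, fun J hJ => ?_, fun c hc hy => ?_⟩
    · have h1 : ContinuousWithinAt (fun J => ‖Q J‖)
          {J : Fin (k + 1) → E | J 0 ∈ (chartAt E y).target} J :=
        (hQ J hJ).continuousAt.norm.continuousWithinAt
      exact h1.upperSemicontinuousWithinAt
    · show ‖P c‖ = ‖Q (chartJet E k y c)‖
      rw [hQP c hc hy]
  · show ‖P c‖ = 0
    rw [stat c hc y hy h0, norm_zero]
  · have h1 : ∀ z ∈ closedBall (0 : ℂ) r, AnalyticAt ℂ (fun z => P (fun w => f (z + w))) z := by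
      intro z hz
      refine n2_hol hol ?_
      have h2 : z ∈ ball (0 : ℂ) R := closedBall_subset_ball hR hz
      filter_upwards [isOpen_ball.mem_nhds h2] with w hw
      exact hf w hw
    have h2 := n2_mean hr h1
    have h3 : (fun w => f (0 + w)) = f := by
      funext w
      rw [zero_add]
    rw [h3] at h2
    exact h2

end hol

end Pool.Agent.ND
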