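import Pool.Agent.Lib_helper80.IS.Notions

/-! # Null curves in surfaces (MP_45e720_ag): definitions for the statement

The complex manifolds are as in `Pool.Agent.Lib_helper82.BR.Statement`: charted spaces over a
finite-dimensional complex normed space `E` with analytic transition maps. Germs of curves, their
jets in a chart and invariant jet differentials are defined in `Pool.Agent.Lib_helper58.MBS.Notions`,
holomorphic maps to complex tori in `Pool.Agent.Lib_helper80.SL.Notions2`. -/

set_option autoImplicit false

open Filter Topology Metric Set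
open scoped Manifold ContDiff

namespace Pool.Agent.NullCurves

open MinBrody (IsGerm chartJet IsInvariantJetDifferential)

section

variable (E : Type) {X : Type} [NormedAddCommGroup E] [NormedSpace ℂ E] [TopologicalSpace X]
  [ChartedSpace E X]

/-- `L` is a jet gauge of order `k` on `X`: a nonnegative upper semicontinuous function of the
`k`-jets of germs of holomorphic curves in `X`, which vanishes on the germs with derivative zero
and which is subharmonic along the holomorphic curves: for every holomorphic map `f` from a disc to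
`X` the function `z ↦ L (f (z + ·))` satisfies the submean value inequality. Examples are the
absolute values of invariant jet differentials (also of a covering space of `X`, if they are
bounded: then `L c` is the supremum over the lifts of `c`), and the hermitian metrics of nonpositive
holomorphic sectional curvature and, more generally, the jet metrics of nonpositive curvature. -/
structure IsJetGauge (k : ℕ) (L : (ℂ → X) → ℝ) : Prop where
  usc : ∀ y : X, ∃ Q : (Fin (k + 1) → E) → ℝ,
    UpperSemicontinuousOn Q {J | J 0 ∈ (chartAt E y).target} ∧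
    ∀ c, IsGerm E c → c 0 ∈ (chartAt E y).source → L c = Q (chartJet E k y c)
  nonneg : ∀ c, IsGerm E c → 0 ≤ L c
  stat : ∀ c, IsGerm E c → ∀ y : X, c 0 ∈ (chartAt E y).source →
    deriv (fun z => chartAt E y (c z)) 0 = 0 → L c = 0
  sub : ∀ (f : ℂ → X) (r R : ℝ), 0 < r → r < R →
    (∀ z ∈ ball (0 : ℂ) R, MDifferentiableAt 𝓘(ℂ, ℂ) 𝓘(ℂ, E) f z) →
    L f ≤ Real.circleAverage (fun z => L (fun w => f (z + w))) 0 r

/-- The germ `c` is null: all jet gauges of `X` (of all orders) vanish on the germs of `c` at the
points near the origin. -/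
def IsNullGerm (c : ℂ → X) : Prop :=
  ∀ᶠ z in 𝓝 (0 : ℂ), ∀ (k : ℕ) (L : (ℂ → X) → ℝ), IsJetGauge E k L → L (fun w => c (z + w)) = 0

variable [IsManifold 𝓘(ℂ, E) ω X]

/-- The germ `c` lies in an algebraic curve: it lies in the zero set of a nonzero plane form of
positive weight (if `X` is a surface: a nonzero pluricanonical form) or in a fibre of a nonconstant
holomorphic map from `X` to a complex torus. -/
def IsAlgebraicGerm (c : ℂ → X) : Prop :=
  (∃ (k : ℕ) (τ : BrodyRigid.TangentPairs E X → ℂ), 0 < k ∧ BrodyRigid.IsPlaneForm E X k τ ∧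
    (∃ (x : X) (u v : E), τ (BrodyRigid.pair x u v) ≠ 0) ∧
    ∀ᶠ z in 𝓝 (0 : ℂ), ∀ u v : E, τ (BrodyRigid.pair (c z) u v) = 0) ∨
  ∃ (W : Type) (_ : NormedAddCommGroup W) (_ : NormedSpace ℂ W) (_ : FiniteDimensional ℂ W)
    (Γ : Submodule ℤ W) (_ : DiscreteTopology Γ) (φ : X → W ⧸ Γ),
    StrongLang.IsTorusValued E Γ φ ∧ (∃ x y, φ x ≠ φ y) ∧ ∀ᶠ z in 𝓝 (0 : ℂ), φ (c z) = φ (c 0)

variable (X)

/-- On some finite unramified covering `X'` of `X` (for instance `X` itself) all null germs with
nonzero derivative lie in algebraic curves. (A holomorphic map `π : X' → X` with injective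
derivatives between compact connected manifolds of the same dimension is a finite unramified
covering.) -/
def NullGermsAlgebraic : Prop :=
  ∃ (X' : Type) (_ : TopologicalSpace X') (_ : CompactSpace X') (_ : T2Space X')
    (_ : ConnectedSpace X') (_ : ChartedSpace E X') (_ : IsManifold 𝓘(ℂ, E) ω X') (π : X' → X),
    MDifferentiable 𝓘(ℂ, E) 𝓘(ℂ, E) π ∧
      (∀ (x' : X') (v : E), (SS.dirDeriv π x' v : E) = 0 → v = 0) ∧
      ∀ c : ℂ → X', IsGerm E c → BrodyRigid.velocity (E := E) c 0 ≠ ⟨c 0, (0 : E)⟩ →
        IsNullGerm E c → IsAlgebraicGerm E c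

end

end Pool.Agent.NullCurves
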